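import Mathlib

/-!
# A graph with `q = 2` and `MB > mr₊` (MP_558aee_co, Q1)
-/

set_option autoImplicit false
set_option linter.unusedSectionVars false

open Matrix Finset Polynomial

namespace Pool.Agent.Results.MP_558aee_co.Bipartition

section Defs
variable {V : Type} [Fintype V] [DecidableEq V]

/-- The set `𝒮(G)`: real symmetric matrices whose off-diagonal nonzero pattern is given by the
edges of `G`. -/
def SG (G : SimpleGraph V) : Set (Matrix V V ℝ) :=
  {A | A.IsSymm ∧ ∀ i j, i ≠ j → (A i j ≠ 0 ↔ G.Adj i j)}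

/-- `q(G)`: the minimum number of distinct eigenvalues of a matrix in `𝒮(G)`. -/
noncomputable def q (G : SimpleGraph V) : ℕ :=
  sInf {k | ∃ A ∈ SG G, (spectrum ℝ A).ncard = k}

/-- `G` achieves the bipartition `[n - k, k]`: some matrix in `𝒮(G)` has exactly two distinct
eigenvalues `x ≠ y`, with multiplicities `n - k` and `k` (in the characteristic polynomial). -/
def Achieves (G : SimpleGraph V) (k : ℕ) : Prop :=
  ∃ A ∈ SG G, ∃ x y : ℝ, x ≠ y ∧
    A.charpoly = (X - C x) ^ (Fintype.card V - k) * (X - C y) ^ k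

/-- The minimal multiplicity bipartition `MB(G)`: the least `k` with `1 ≤ k ≤ ⌊n/2⌋` such that `G`
achieves `[n - k, k]`. -/
noncomputable def MB (G : SimpleGraph V) : ℕ :=
  sInf {k | 1 ≤ k ∧ k ≤ Fintype.card V / 2 ∧ Achieves G k}

/-- The minimum semidefinite rank `mr₊(G)`. -/
noncomputable def mrPlus (G : SimpleGraph V) : ℕ :=
  sInf {r | ∃ A ∈ SG G, A.PosSemidef ∧ A.rank = r}

end Defs

section General
variable {V : Type} [Fintype V] [DecidableEq V]

/-- a real symmetric matrix whose characteristic polynomial has only the roots `x`, `y` satisfies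
the quadratic equation -/
theorem quad_of_charpoly (A : Matrix V V ℝ) (hA : A.IsSymm) (x y : ℝ) (a b : ℕ)
    (h : A.charpoly = (X - C x) ^ a * (X - C y) ^ b) :
    (A - x • (1 : Matrix V V ℝ)) * (A - y • (1 : Matrix V V ℝ)) = 0 := by
  have hH : A.IsHermitian := by
    rw [Matrix.IsHermitian, Matrix.conjTranspose_eq_transpose_of_trivial]; exact hA
  have hev : ∀ i, hH.eigenvalues i = x ∨ hH.eigenvalues i = y := by
    intro i
    have h1 := hH.eigenvalues_mem_spectrum_real i
    rw [Matrix.mem_spectrum_iff_isRoot_charpoly, h, Polynomial.IsRoot.def, eval_mul, eval_pow,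
      eval_pow, eval_sub, eval_sub, eval_X, eval_C, eval_C, mul_eq_zero] at h1
    rcases h1 with h1 | h1
    · left
      by_contra hne
      exact pow_ne_zero _ (sub_ne_zero.2 hne) h1
    · right
      by_contra hne
      exact pow_ne_zero _ (sub_ne_zero.2 hne) h1
  set B := (A - x • (1 : Matrix V V ℝ)) * (A - y • (1 : Matrix V V ℝ)) with hB
  have hBv : ∀ i, B *ᵥ (hH.eigenvectorBasis i).ofLp = 0 := by
    intro i
    have h1 := hH.mulVec_eigenvectorBasis i
    have h3 : ∀ r : ℝ, (A - r • (1 : Matrix V V ℝ)) *ᵥ (hH.eigenvectorBasis i).ofLp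
        = (hH.eigenvalues i - r) • (hH.eigenvectorBasis i).ofLp := by
      intro r
      rw [Matrix.sub_mulVec, Matrix.smul_mulVec, Matrix.one_mulVec, h1, sub_smul]
    rw [hB, ← Matrix.mulVec_mulVec, h3 y, Matrix.mulVec_smul, h3 x]
    rcases hev i with h2 | h2
    · rw [h2]; simp
    · rw [h2]; simp
  have hlin : Matrix.toLin' B = 0 := by
    apply LinearMap.ext
    intro z
    have hz : WithLp.toLp 2 z = ∑ i, (hH.eigenvectorBasis.repr (WithLp.toLp 2 z)) i • hH.eigenvectorBasis i :=
      (hH.eigenvectorBasis.sum_repr _).symm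
    have hz' : z = ∑ i, (hH.eigenvectorBasis.repr (WithLp.toLp 2 z)) i • (hH.eigenvectorBasis i).ofLp := by
      have := congrArg WithLp.ofLp hz
      rw [WithLp.ofLp_sum] at this
      exact this
    rw [hz', map_sum]
    rw [LinearMap.zero_apply]
    refine Finset.sum_eq_zero fun i _ => ?_
    rw [map_smul, Matrix.toLin'_apply, hBv i, smul_zero]
  have := congrArg LinearMap.toMatrix' hlin
  simpa using this

theorem trace_of_charpoly [Nonempty V] (A : Matrix V V ℝ) (x y : ℝ) (a b : ℕ)
    (h : A.charpoly = (X - C x) ^ a * (X - C y) ^ b) : A.trace = a * x + b * y := by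
  rw [Matrix.trace_eq_neg_charpoly_nextCoeff, h,
    ((Polynomial.monic_X_sub_C x).pow a).nextCoeff_mul ((Polynomial.monic_X_sub_C y).pow b),
    (Polynomial.monic_X_sub_C x).nextCoeff_pow, (Polynomial.monic_X_sub_C y).nextCoeff_pow,
    Polynomial.nextCoeff_X_sub_C, Polynomial.nextCoeff_X_sub_C]
  simp only [nsmul_eq_mul]
  ring

/-- a graph achieving `[n - k, k]` has a projection of trace `k` with its pattern -/
theorem exists_proj [Nonempty V] (G : SimpleGraph V) (k : ℕ) (hk : k ≤ Fintype.card V)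
    (h : Achieves G k) :
    ∃ P : Matrix V V ℝ, P.IsSymm ∧ P * P = P ∧ P.trace = k ∧
      ∀ i j, i ≠ j → (P i j ≠ 0 ↔ G.Adj i j) := by
  obtain ⟨A, ⟨hA, hpat⟩, x, y, hxy, hc⟩ := h
  have hyx : y - x ≠ 0 := sub_ne_zero.2 hxy.symm
  have hq := quad_of_charpoly A hA x y _ _ hc
  have ht := trace_of_charpoly A x y _ _ hc
  refine ⟨(y - x)⁻¹ • (A - x • (1 : Matrix V V ℝ)), ?_, ?_, ?_, ?_⟩
  · rw [Matrix.IsSymm, Matrix.transpose_smul, Matrix.transpose_sub, Matrix.transpose_smul,
      Matrix.transpose_one, hA]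
  · rw [smul_mul_smul_comm]
    have h1 : (A - x • (1 : Matrix V V ℝ)) * (A - x • (1 : Matrix V V ℝ))
        = (y - x) • (A - x • (1 : Matrix V V ℝ)) := by
      have h2 : (A - x • (1 : Matrix V V ℝ)) * (A - x • (1 : Matrix V V ℝ))
          = (A - x • (1 : Matrix V V ℝ)) * (A - y • (1 : Matrix V V ℝ))
            + (y - x) • (A - x • (1 : Matrix V V ℝ)) := by
        simp only [mul_sub, sub_mul, mul_smul_comm, smul_mul_assoc, mul_one, one_mul, sub_smul,
          smul_sub]
        abel
      rw [h2, hq, zero_add]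
    rw [h1, smul_smul]
    congr 1
    field_simp
  · rw [Matrix.trace_smul, Matrix.trace_sub, Matrix.trace_smul, Matrix.trace_one, ht, smul_eq_mul,
      smul_eq_mul, Nat.cast_sub hk]
    field_simp
    ring
  · intro i j hij
    rw [← hpat i j hij, Matrix.smul_apply, Matrix.sub_apply, Matrix.smul_apply,
      Matrix.one_apply_ne hij, smul_zero, sub_zero, smul_eq_mul]
    constructor
    · intro h1 h2; rw [h2, mul_zero] at h1; exact h1 rfl
    · intro h1; exact mul_ne_zero (inv_ne_zero hyx) h1

end General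

/-- the adjacency table: `0,1,2` independent, joined to `3,...,7`; edges `45, 47, 57, 67` -/
def adjB : Fin 8 → Fin 8 → Bool :=
  ![![false, false, false, true, true, true, true, true],
    ![false, false, false, true, true, true, true, true],
    ![false, false, false, true, true, true, true, true],
    ![true, true, true, false, false, false, false, false],
    ![true, true, true, false, false, true, false, true],
    ![true, true, true, false, true, false, false, true],
    ![true, true, true, false, false, false, false, true],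
    ![true, true, true, false, true, true, true, false]]

/-- the graph -/
def G : SimpleGraph (Fin 8) where
  Adj i j := adjB i j = true
  symm := ⟨by decide⟩
  loopless := ⟨by decide⟩

instance : DecidableRel G.Adj := fun i j => inferInstanceAs (Decidable (adjB i j = true))

/-- `R² = R = Rᵀ` implies that the trace of `R` is the sum of the squares of its entries -/
theorem trace_eq_sq {V : Type} [Fintype V] [DecidableEq V] (R : Matrix V V ℝ) (hs : R.IsSymm)
    (hi : R * R = R) : R.trace = ∑ i, ∑ j, R i j ^ 2 := by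
  unfold Matrix.trace
  refine Finset.sum_congr rfl fun i _ => ?_
  have h1 := congrFun (congrFun hi i) i
  rw [Matrix.mul_apply] at h1
  rw [Matrix.diag_apply, ← h1]
  refine Finset.sum_congr rfl fun j _ => ?_
  have h2 : R j i = R i j := congrFun (congrFun hs i) j
  rw [h2]; ring

theorem no_proj (P : Matrix (Fin 8) (Fin 8) ℝ) (hs : P.IsSymm) (hi : P * P = P) (k : ℕ)
    (ht : P.trace = k) (hk : k ≤ 3) (hp : ∀ i j, i ≠ j → (P i j ≠ 0 ↔ G.Adj i j)) : False := by
  have z : ∀ i j, i ≠ j → ¬ G.Adj i j → P i j = 0 := by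
    intro i j hij h
    by_contra h'
    exact h ((hp i j hij).1 h')
  have nz : ∀ i j, i ≠ j → G.Adj i j → P i j ≠ 0 := fun i j hij h => (hp i j hij).2 h
  have hsym : ∀ i j, P i j = P j i := fun i j => (congrFun (congrFun hs i) j).symm
  have hid : ∀ i j, ∑ l, P i l * P l j = P i j := by
    intro i j
    have := congrFun (congrFun hi i) j
    rwa [Matrix.mul_apply] at this
  -- non-edges
  have z01 := z 0 1 (by decide) (by decide)
  have z02 := z 0 2 (by decide) (by decide)
  have z12 := z 1 2 (by decide) (by decide)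
  have z10 := z 1 0 (by decide) (by decide)
  have z20 := z 2 0 (by decide) (by decide)
  have z21 := z 2 1 (by decide) (by decide)
  have z34 := z 3 4 (by decide) (by decide)
  have z35 := z 3 5 (by decide) (by decide)
  have z36 := z 3 6 (by decide) (by decide)
  have z37 := z 3 7 (by decide) (by decide)
  have z63 := z 6 3 (by decide) (by decide)
  have z64 := z 6 4 (by decide) (by decide)
  have z65 := z 6 5 (by decide) (by decide)
  have z46 := z 4 6 (by decide) (by decide)
  set p := 1 - P 3 3 with hpdef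
  have e0 : P 0 0 = p := by
    have h := hid 3 0
    rw [Fin.sum_univ_eight, z10, z20, z34, z35, z36, z37] at h
    have h2 : P 3 0 * (P 0 0 - p) = 0 := by rw [hpdef]; linear_combination h
    rcases mul_eq_zero.1 h2 with h3 | h3
    · exact absurd h3 (nz 3 0 (by decide) (by decide))
    · exact sub_eq_zero.1 h3
  have e1 : P 1 1 = p := by
    have h := hid 3 1
    rw [Fin.sum_univ_eight, z01, z21, z34, z35, z36, z37] at h
    have h2 : P 3 1 * (P 1 1 - p) = 0 := by rw [hpdef]; linear_combination h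
    rcases mul_eq_zero.1 h2 with h3 | h3
    · exact absurd h3 (nz 3 1 (by decide) (by decide))
    · exact sub_eq_zero.1 h3
  have e2 : P 2 2 = p := by
    have h := hid 3 2
    rw [Fin.sum_univ_eight, z02, z12, z34, z35, z36, z37] at h
    have h2 : P 3 2 * (P 2 2 - p) = 0 := by rw [hpdef]; linear_combination h
    rcases mul_eq_zero.1 h2 with h3 | h3
    · exact absurd h3 (nz 3 2 (by decide) (by decide))
    · exact sub_eq_zero.1 h3
  -- row 6
  have f0 : P 6 7 * P 7 0 = (1 - p - P 6 6) * P 6 0 := by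
    have h := hid 6 0
    rw [Fin.sum_univ_eight, z10, z20, z63, z64, z65, e0] at h
    linear_combination h
  have f1 : P 6 7 * P 7 1 = (1 - p - P 6 6) * P 6 1 := by
    have h := hid 6 1
    rw [Fin.sum_univ_eight, z01, z21, z63, z64, z65, e1] at h
    linear_combination h
  have f2 : P 6 7 * P 7 2 = (1 - p - P 6 6) * P 6 2 := by
    have h := hid 6 2
    rw [Fin.sum_univ_eight, z02, z12, z63, z64, z65, e2] at h
    linear_combination h
  have hp0 : p ≠ 0 := by
    intro h0
    have h := hid 0 0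
    rw [e0, h0] at h
    have h2 : ∀ l, P 0 l * P l 0 = P 0 l ^ 2 := by intro l; rw [hsym l 0]; ring
    simp only [h2] at h
    have h3 := (Finset.sum_eq_zero_iff_of_nonneg (fun l _ => sq_nonneg (P 0 l))).1 h 3 (Finset.mem_univ _)
    exact nz 0 3 (by decide) (by decide) (by simpa using h3)
  set J : Matrix (Fin 8) (Fin 8) ℝ := Matrix.diagonal ![1, 1, 1, 0, 0, 0, 0, 0] with hJ
  have hJPJ : J * P * J = p • J := by
    ext i j
    rw [hJ, Matrix.mul_diagonal, Matrix.diagonal_mul, Matrix.smul_apply, Matrix.diagonal_apply,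
      smul_eq_mul]
    fin_cases i <;> fin_cases j <;> simp [e0, e1, e2, z01, z02, z12, z10, z20, z21]
  set Cm : Matrix (Fin 8) (Fin 8) ℝ := p⁻¹ • (P * J * P) with hC
  have hPC : P * Cm = Cm := by
    rw [hC, mul_smul_comm, ← mul_assoc, ← mul_assoc, hi]
  have hCP : Cm * P = Cm := by
    rw [hC, smul_mul_assoc, mul_assoc, mul_assoc, hi, ← mul_assoc]
  have hCC : Cm * Cm = Cm := by
    have h1 : P * J * P * (P * J * P) = p • (P * J * P) := by
      calc P * J * P * (P * J * P) = P * J * (P * P) * J * P := by simp only [mul_assoc]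
        _ = P * (J * P * J) * P := by rw [hi]; simp only [mul_assoc]
        _ = p • (P * J * P) := by rw [hJPJ, mul_smul_comm, smul_mul_assoc]
    rw [hC, smul_mul_smul_comm, h1, smul_smul]
    congr 1
    field_simp
  have hCs : Cm.IsSymm := by
    rw [Matrix.IsSymm, hC, Matrix.transpose_smul, Matrix.transpose_mul, Matrix.transpose_mul, hs]
    rw [hJ, Matrix.diagonal_transpose, ← mul_assoc]
  have hRs : (P - Cm).IsSymm := by
    rw [Matrix.IsSymm, Matrix.transpose_sub, hs, hCs]
  have hRi : (P - Cm) * (P - Cm) = P - Cm := by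
    rw [mul_sub, sub_mul, sub_mul, hi, hCP, hPC, hCC]; abel
  have htr := trace_eq_sq (P - Cm) hRs hRi
  have htC : Cm.trace = 3 := by
    rw [hC, Matrix.trace_smul, Matrix.trace_mul_comm, ← mul_assoc, hi, Matrix.trace_mul_comm]
    have : (J * P).trace = 3 * p := by
      rw [hJ]
      unfold Matrix.trace
      rw [Fin.sum_univ_eight]
      simp only [Matrix.diag_apply, Matrix.diagonal_mul]
      simp [e0, e1, e2]
      ring
    rw [this, smul_eq_mul]
    field_simp
  have htr2 : (P - Cm).trace = (k : ℝ) - 3 := by rw [Matrix.trace_sub, ht, htC]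
  rw [htr2] at htr
  have hk' : (k : ℝ) ≤ 3 := by exact_mod_cast hk
  have hzero : ∀ i j, (P - Cm) i j = 0 := by
    have h0 : ∑ i, ∑ j, (P - Cm) i j ^ 2 = 0 := by
      apply le_antisymm
      · rw [← htr]; linarith
      · exact Finset.sum_nonneg fun i _ => Finset.sum_nonneg fun j _ => sq_nonneg _
    intro i j
    have h1 := (Finset.sum_eq_zero_iff_of_nonneg (fun i _ => Finset.sum_nonneg fun j _ =>
      sq_nonneg ((P - Cm) i j))).1 h0 i (Finset.mem_univ _)
    have h2 := (Finset.sum_eq_zero_iff_of_nonneg (fun j _ => sq_nonneg ((P - Cm) i j))).1 h1 j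
      (Finset.mem_univ _)
    simpa using h2
  have hPij : ∀ i j, p * P i j = P i 0 * P 0 j + P i 1 * P 1 j + P i 2 * P 2 j := by
    intro i j
    have h1 := hzero i j
    rw [Matrix.sub_apply, sub_eq_zero, hC, Matrix.smul_apply, smul_eq_mul] at h1
    have h2 : (P * J * P) i j = P i 0 * P 0 j + P i 1 * P 1 j + P i 2 * P 2 j := by
      rw [Matrix.mul_apply, Fin.sum_univ_eight]
      simp only [hJ, Matrix.mul_diagonal]
      simp
    rw [h1, h2]
    field_simp
  have h47 := hPij 4 7
  have h46 := hPij 4 6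
  rw [z46, mul_zero] at h46
  have hfin : P 6 7 * (p * P 4 7) = 0 := by
    rw [h47, hsym 0 7, hsym 1 7, hsym 2 7]
    have : P 6 7 * (P 4 0 * P 7 0 + P 4 1 * P 7 1 + P 4 2 * P 7 2)
        = (1 - p - P 6 6) * (P 4 0 * P 6 0 + P 4 1 * P 6 1 + P 4 2 * P 6 2) := by
      linear_combination P 4 0 * f0 + P 4 1 * f1 + P 4 2 * f2
    rw [this, hsym 6 0, hsym 6 1, hsym 6 2, ← h46, mul_zero]
  rcases mul_eq_zero.1 hfin with h | h
  · exact nz 6 7 (by decide) (by decide) h
  · rcases mul_eq_zero.1 h with h | h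
    · exact hp0 h
    · exact nz 4 7 (by decide) (by decide) h

/-- `t² = 3/4` and `r² = 1/648` -/
noncomputable def t : ℝ := √3 / 2
noncomputable def r : ℝ := 1 / (18 * √2)

theorem ht : t ^ 2 = 3 / 4 := by
  unfold t; rw [div_pow, Real.sq_sqrt (by norm_num)]; norm_num

theorem hr : r ^ 2 = 1 / 648 := by
  unfold r; rw [div_pow, mul_pow, Real.sq_sqrt (by norm_num)]; norm_num

theorem t_ne : t ≠ 0 := by
  intro h; have := ht; rw [h] at this; norm_num at this

theorem r_ne : r ≠ 0 := by
  intro h; have := hr; rw [h] at this; norm_num at this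

/-- orthonormal columns -/
noncomputable def Vm : Matrix (Fin 8) (Fin 4) ℝ :=
  !![t, 0, 0, 0; 0, t, 0, 0; 0, 0, t, 0; 1 / 6, 1 / 3, 1 / 3, 0;
    10 * r, -r, -4 * r, 1 / 6; -2 * r, -7 * r, 8 * r, 1 / 6; -6 * r, 6 * r, -3 * r, 1 / 2;
    -2 * r, 2 * r, -r, -5 / 6]

theorem VtV : Vmᵀ * Vm = 1 := by
  have h1 := ht
  have h2 := hr
  ext i j
  rw [Matrix.mul_apply, Fin.sum_univ_eight]
  fin_cases i <;> fin_cases j <;> simp [Vm, Matrix.transpose_apply] <;> ring_nf <;>
    simp only [h1, h2] <;> norm_num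

theorem VVt_sym : (Vm * Vmᵀ).IsSymm := by
  rw [Matrix.IsSymm, Matrix.transpose_mul, Matrix.transpose_transpose]

theorem VVt_pat (i j : Fin 8) (hij : i ≠ j) : ((Vm * Vmᵀ) i j ≠ 0 ↔ G.Adj i j) := by
  have h1 := ht
  have h2 := hr
  have h3 := t_ne
  have h4 := r_ne
  rw [Matrix.mul_apply, Fin.sum_univ_four]
  change _ ↔ adjB i j = true
  fin_cases i <;> fin_cases j <;> simp [Vm, Matrix.transpose_apply, adjB, h3, h4] at hij ⊢ <;>
    ring_nf <;> simp only [h2] <;> norm_num

theorem achieves4 : Achieves G 4 := by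
  refine ⟨Vm * Vmᵀ, ⟨VVt_sym, VVt_pat⟩, 0, 1, by norm_num, ?_⟩
  rw [Matrix.charpoly_mul_comm_of_le _ _ (by simp), VtV, Matrix.charpoly_one]
  simp

theorem q_eq : q G = 2 := by
  have hmem : 2 ∈ {k | ∃ A ∈ SG G, (spectrum ℝ A).ncard = k} := by
    refine ⟨Vm * Vmᵀ, ⟨VVt_sym, VVt_pat⟩, ?_⟩
    have h1 : spectrum ℝ (Vm * Vmᵀ) = {0, 1} := by
      ext x
      rw [Matrix.mem_spectrum_iff_isRoot_charpoly, Matrix.charpoly_mul_comm_of_le _ _ (by simp), VtV,
        Matrix.charpoly_one]
      simp only [Fintype.card_fin, Polynomial.IsRoot.def, eval_mul, eval_pow, eval_X, eval_sub,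
        eval_one, mul_eq_zero, Set.mem_insert_iff, Set.mem_singleton_iff]
      constructor
      · rintro (h | h)
        · left; by_contra hne; exact pow_ne_zero _ hne h
        · right
          by_contra hne; exact pow_ne_zero _ (sub_ne_zero.2 hne) h
      · rintro (rfl | rfl)
        · left; norm_num
        · right; norm_num
    rw [h1]
    exact Set.ncard_pair (by norm_num)
  apply le_antisymm (Nat.sInf_le hmem)
  apply le_csInf ⟨2, hmem⟩
  rintro k ⟨A, ⟨hA, hp⟩, rfl⟩
  by_contra hlt
  push Not at hlt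
  have hH : A.IsHermitian := by
    rw [Matrix.IsHermitian, Matrix.conjTranspose_eq_transpose_of_trivial]; exact hA
  have hfin : (spectrum ℝ A).Finite := by
    rw [hH.spectrum_real_eq_range_eigenvalues]; exact Set.finite_range _
  have hle : (spectrum ℝ A).ncard ≤ 1 := by omega
  rw [Set.ncard_le_one hfin] at hle
  -- all eigenvalues equal
  set x := hH.eigenvalues 0 with hx
  have hall : ∀ i, hH.eigenvalues i = x := fun i =>
    hle _ (hH.eigenvalues_mem_spectrum_real i) _ (hH.eigenvalues_mem_spectrum_real 0)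
  have hc : A.charpoly = (X - C x) ^ 8 * (X - C x) ^ 0 := by
    rw [hH.charpoly_eq]
    simp [hall]
  have hq := quad_of_charpoly A hA x x 8 0 hc
  have hB : A - x • (1 : Matrix (Fin 8) (Fin 8) ℝ) = 0 := by
    have hBs : (A - x • (1 : Matrix (Fin 8) (Fin 8) ℝ))ᵀ = A - x • (1 : Matrix (Fin 8) (Fin 8) ℝ) := by
      rw [Matrix.transpose_sub, Matrix.transpose_smul, Matrix.transpose_one, hA]
    have h1 : (A - x • (1 : Matrix (Fin 8) (Fin 8) ℝ)) * (A - x • (1 : Matrix (Fin 8) (Fin 8) ℝ))ᴴ = 0 := by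
      rw [Matrix.conjTranspose_eq_transpose_of_trivial, hBs]; exact hq
    exact Matrix.self_mul_conjTranspose_eq_zero.1 h1
  have h03 : A 0 3 ≠ 0 := (hp 0 3 (by decide)).2 (by decide)
  apply h03
  have h2 := congrFun (congrFun hB 0) 3
  rw [Matrix.sub_apply, Matrix.smul_apply, Matrix.one_apply_ne (by decide), smul_zero, sub_zero] at h2
  exact h2

/-- integer vectors for the semidefinite rank -/
def Wm : Matrix (Fin 8) (Fin 3) ℝ :=
  !![1, 0, 0; 0, 1, 0; 0, 0, 1; 1, 1, 1; 1, 2, -3; 1, 2, -3; -5, 4, 1; -4, 6, -2]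

theorem mrPlus_le : mrPlus G ≤ 3 := by
  have hmem : (Wm * Wmᴴ).rank ∈ {r | ∃ A ∈ SG G, A.PosSemidef ∧ A.rank = r} := by
    refine ⟨Wm * Wmᴴ, ⟨?_, ?_⟩, Matrix.posSemidef_self_mul_conjTranspose _, rfl⟩
    · rw [Matrix.conjTranspose_eq_transpose_of_trivial, Matrix.IsSymm, Matrix.transpose_mul,
        Matrix.transpose_transpose]
    · intro i j hij
      rw [Matrix.conjTranspose_eq_transpose_of_trivial, Matrix.mul_apply, Fin.sum_univ_three]
      change _ ↔ adjB i j = true
      fin_cases i <;> fin_cases j <;> simp [Wm, Matrix.transpose_apply, adjB] at hij ⊢ <;>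
        norm_num
  refine (Nat.sInf_le hmem).trans ?_
  refine (Matrix.rank_mul_le_left _ _).trans ?_
  have := Matrix.rank_le_width Wm
  simpa using this

theorem MB_eq : MB G = 4 := by
  have hmem : 4 ∈ {k | 1 ≤ k ∧ k ≤ Fintype.card (Fin 8) / 2 ∧ Achieves G k} :=
    ⟨by norm_num, by simp, achieves4⟩
  apply le_antisymm (Nat.sInf_le hmem)
  apply le_csInf ⟨4, hmem⟩
  rintro k ⟨h1, h2, h3⟩
  by_contra hlt
  push Not at hlt
  have hk : k ≤ Fintype.card (Fin 8) := by
    rw [Fintype.card_fin]; omega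
  obtain ⟨P, hs, hi, htr, hp⟩ := exists_proj G k hk h3
  exact no_proj P hs hi k htr (by omega) hp

/-- There is a graph `G` with `q(G) = 2` and `MB(G) > mr₊(G)`. -/
theorem result : ∃ (n : ℕ) (G : SimpleGraph (Fin n)), q G = 2 ∧ mrPlus G < MB G :=
  ⟨8, G, q_eq, by
    rw [MB_eq]
    exact lt_of_le_of_lt mrPlus_le (by norm_num)⟩

end Pool.Agent.Results.MP_558aee_co.Bipartition
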